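import Pool.Agent.H21.L.R_pool_sql_team_seeded_2aa45f1a.Q5.MS.Window
import Pool.Agent.H21.L.R_seed8.TH270.MS.EQ3
import Pool.Agent.H21.L.R_seed8.TH270.MS.GrowthF
import Pool.Agent.H21.L.R_seed8.TH941.Newform

/-!
# One window of the product of Birch and Swinnerton-Dyer decides

Let `E : y² = x³ + a x + b` be an elliptic curve over `ℚ`, `a, b ∈ ℤ`, `F` the entire continuation of its
incomplete `L`-series (the Euler factors at the primes dividing `2Δ` are removed), `f` its newform, `N_p` the number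
of affine points modulo `p`, so that `#E(𝔽_p) = N_p + 1`, and `m = ord_{s=1} F`. For `0 < l < 1` let

`W_l(x) = ∏_{x^l < p ≤ x, p ∤ 2Δ} #E(𝔽_p)/p`

be the part of the product of Birch and Swinnerton-Dyer in the window `(x^l, x]`. It is shown, for every such
curve, that the following are EQUIVALENT:

* `F` has no zeros with `Re s > 1` (by the functional equation: the Riemann hypothesis for `E`);
* for ONE exponent `l`, the logarithmic means `(log X)⁻¹ ∫_e^X |log W_l(x)| dx/x` are bounded;
* for ALL exponents `l`, `W_l(x) → (1/l)^m` in logarithmic mean: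
  `(log X)⁻¹ ∫_e^X |log W_l(x) - m log (1/l)| dx/x → 0`.

Moreover, for every real `ρ` and every single `l`: `(log X)⁻¹ ∫_e^X |log W_l(x) - ρ log (1/l)| dx/x → 0` if and only
if `F` has no zeros with `Re s > 1` and `ρ = m`. So one window decides: `L(E, 1) ≠ 0` and the Riemann hypothesis hold
together if and only if `W_{1/2}(x) → 1` in logarithmic mean, and the rank form of the conjecture of Birch and
Swinnerton-Dyer together with the Riemann hypothesis says `W_{1/2}(x) → 2^{rk E(ℚ)}` in logarithmic mean. The unknown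
constant and the factor `√2` of the asymptotic `∏_{p ≤ x} #E(𝔽_p)/p ∼ C (log x)^r` disappear, and so does the need
to know the product from the beginning: the windows `(√x, x]` with `x ∈ [X, X^2]` suffice to compute the mean.

Proof. Let `S(u)` be the sum over the prime powers `≤ e^u` of the coefficients of `log F`. If the means of
`|S(u) - S(lu)|` are bounded, then the Laplace integral of `S(u) - S(lu)` converges for `Re s > 0`; from
`S(u) = (S(u) - S(lu)) + S(lu)` the convergence of the integral of `S` at `x/l` implies its convergence at `x`, and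
as it converges for large `x`, it converges for all `x > 0`. This continues `log F` to `Re s > 1`. Conversely, if `F`
has no zeros there, then `S(u) = m log u + c + h(u)` with `h ∈ L²(1, ∞)` by the mean square theorem of the starting
library (`TH270.MS`, there for the products over all `p ≤ x`), which gives the means of all the windows and the value
`m`. The prime powers are removed with the theorem of Rankin and Selberg.
-/

set_option autoImplicit false

namespace Pool.Agent.Results.MP_8b7eba_nt.OneWindow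

open Pool.Agent.W263.BSD Filter Topology Classical MeasureTheory Set
open CongruenceSubgroup UpperHalfPlane
open scoped MatrixGroups

/-- `W_l(x)`: the product of `(N_p + 1) / p` over the primes `x^l < p ≤ x`, `p ∤ 2Δ`. -/
noncomputable def window (a b : ℤ) (l x : ℝ) : ℝ :=
  ∏ p ∈ (Finset.range (⌊x⌋₊ + 1)).filter (fun p => GoodPrime a b p ∧ x ^ l < p),
    (((pointCount a b p : ℝ) + 1) / p)

/-- `(log X)⁻¹ ∫_e^X |φ(x)| dx/x`. -/
noncomputable def logMean (φ : ℝ → ℝ) (X : ℝ) : ℝ := (∫ x in Real.exp 1..X, |φ x| / x) / Real.log X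

/-- The `n`-th Fourier coefficient of `f`. -/
noncomputable def coef {N : ℕ} (f : CuspForm (Gamma0 N : Subgroup (GL (Fin 2) ℝ)) 2) (n : ℕ) : ℂ :=
  (qExpansion 1 f).coeff n

/-- `f ∈ S_2(Γ₀(N))` is the newform of the elliptic curve `E : y² = x³ + a x + b` of conductor `N`: the
Fourier coefficients `c(n)` of `f` are real with `c(1) = 1`, they satisfy the Hecke relations
`c(mn) = c(m) c(n)` for coprime `m`, `n` and `c(p^(j+2)) = c(p) c(p^(j+1)) - p c(p^j)` (without the last
term if `p ∣ N`), `c(p) = a_p = p - N_p` (`N_p` affine points) for all primes `p ∤ 2Δ`, `|c(p)| ≤ 2 √p` for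
all `p ∤ N` (Hasse) and `c(p) = 0, 1, -1` for `p ∣ N`. -/
structure IsNewformOf (a b : ℤ) (N : ℕ) (f : CuspForm (Gamma0 N : Subgroup (GL (Fin 2) ℝ)) 2) :
    Prop where
  one : coef f 1 = 1
  real : ∀ n, (coef f n).im = 0
  mul : ∀ m n : ℕ, Nat.Coprime m n → coef f (m * n) = coef f m * coef f n
  pow : ∀ p j : ℕ, p.Prime → coef f (p ^ (j + 2)) = coef f p * coef f (p ^ (j + 1)) -
      (if p ∣ N then 0 else (p : ℂ) * coef f (p ^ j))
  points : ∀ p : ℕ, GoodPrime a b p → coef f p = (p : ℂ) - (pointCount a b p : ℂ)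
  good : ∀ p : ℕ, p.Prime → ¬ p ∣ N → ‖coef f p‖ ≤ 2 * Real.sqrt p
  bad : ∀ p : ℕ, p.Prime → p ∣ N → coef f p = 0 ∨ coef f p = 1 ∨ coef f p = -1

/-- `F` has no zeros with `Re s > 1`. -/
def NoZeros (F : ℂ → ℂ) : Prop := ∀ s : ℂ, 1 < s.re → F s ≠ 0

/-! ### translation -/

open Pool.Agent.TH270.MS (Mc BM)
open Pool.Agent.TH270.MS.EQ (nQ alQ curve_mc corr_lim corr_eq growth_F mero_iff mero_ord)
open Pool.Agent.Q5.MS (Pv Sq WV WL window_pv window_bdd)

theorem hecke {a b : ℤ} {N : ℕ} {f : CuspForm (Gamma0 N : Subgroup (GL (Fin 2) ℝ)) 2}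
    (hf : IsNewformOf a b N f) : Pool.Agent.TH941.Hecke f where
  one := hf.one
  real := hf.real
  mul := hf.mul
  pow := hf.pow
  good := hf.good
  bad := fun p hp h => by
    rcases hf.bad p hp h with h1 | h1 | h1
    · have h2 : ‖coef f p‖ ≤ 1 := by rw [h1]; simp
      exact h2
    · have h2 : ‖coef f p‖ ≤ 1 := by rw [h1]; simp
      exact h2
    · have h2 : ‖coef f p‖ ≤ 1 := by rw [h1]; simp
      exact h2

theorem window_pos (a b : ℤ) (l x : ℝ) : 0 < window a b l x := by
  unfold window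
  refine Finset.prod_pos fun q hq => ?_
  have hq0 : (0 : ℝ) < q := by exact_mod_cast (Finset.mem_filter.1 hq).2.1.1.pos
  positivity

theorem split (a b : ℤ) {l x : ℝ} (hl1 : l < 1) (hx : 1 ≤ x) :
    bsdProduct a b x = bsdProduct a b (x ^ l) * window a b l x := by
  have h0 : 0 ≤ x ^ l := by positivity
  have hle : x ^ l ≤ x := by
    calc x ^ l ≤ x ^ (1 : ℝ) := Real.rpow_le_rpow_of_exponent_le hx hl1.le
      _ = x := Real.rpow_one x
  unfold bsdProduct window
  rw [← Finset.prod_filter_mul_prod_filter_not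
    ((Finset.range (⌊x⌋₊ + 1)).filter (GoodPrime a b)) (fun p : ℕ => (p : ℝ) ≤ x ^ l)]
  congr 1
  · refine Finset.prod_congr ?_ fun _ _ => rfl
    ext q
    simp only [Finset.mem_filter, Finset.mem_range, Nat.lt_succ_iff]
    constructor
    · rintro ⟨⟨h1, h2⟩, h3⟩
      exact ⟨(Nat.le_floor_iff h0).2 h3, h2⟩
    · rintro ⟨h1, h2⟩
      have h3 := (Nat.le_floor_iff h0).1 h1
      exact ⟨⟨(Nat.le_floor_iff (h0.trans hle)).2 (h3.trans hle), h2⟩, h3⟩
  · refine Finset.prod_congr ?_ fun _ _ => rfl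
    ext q
    simp only [Finset.mem_filter, Finset.mem_range, not_le]
    tauto

theorem pv_log (a b : ℤ) (x : ℝ) : Pv (nQ a b) (alQ a b) x = Real.log (bsdProduct a b x) :=
  (Pool.Agent.TH270.MS.EQ.log_product x).symm

theorem wv_eq (a b : ℤ) (ρ : ℝ) {l x : ℝ} (hl1 : l < 1) (hx : Real.exp 1 ≤ x) :
    WV (nQ a b) (alQ a b) ρ l x = Real.log (window a b l x) - ρ * Real.log (1 / l) := by
  have hx1 : (1 : ℝ) ≤ x := by linarith [Real.add_one_le_exp 1]
  unfold WV
  rw [pv_log, pv_log, split a b hl1 hx1, Real.log_mul (bsdProduct_pos _).ne'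
    (window_pos a b l x).ne', one_div, Real.log_inv]
  ring

theorem sq_lim {a b : ℤ} (hΔ : 4 * a ^ 3 + 27 * b ^ 2 ≠ 0) (hrs : Tendsto (rsSum a b) atTop (𝓝 0)) :
    Tendsto (Sq (nQ a b) (alQ a b)) atTop (𝓝 (-(Real.log 2 / 2))) :=
  (corr_lim hΔ hrs).congr fun x => (corr_eq x).symm

theorem mean_eq (a b : ℤ) (ρ : ℝ) {l : ℝ} (hl1 : l < 1) :
    (fun Y : ℝ => (∫ y in Real.exp 1..Y, |WV (nQ a b) (alQ a b) ρ l y| / y) / Real.log Y)
      =ᶠ[atTop] logMean (fun x => Real.log (window a b l x) - ρ * Real.log (1 / l)) := by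
  filter_upwards [eventually_ge_atTop (Real.exp 1)] with Y hY
  unfold logMean
  congr 1
  refine intervalIntegral.integral_congr fun y hy => ?_
  rw [uIcc_of_le hY] at hy
  simp only
  rw [wv_eq a b ρ hl1 hy.1]

/-- **One window decides.** -/
theorem result (a b : ℤ) (hΔ : 4 * a ^ 3 + 27 * b ^ 2 ≠ 0) (F : ℂ → ℂ) (hF : IsLSeries a b F)
    (N : ℕ) [NeZero N] (f : CuspForm (Gamma0 N : Subgroup (GL (Fin 2) ℝ)) 2)
    (hf : IsNewformOf a b N f) :
    ∃ m : ℕ, analyticOrderAt F 1 = m ∧
      List.TFAE [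
        NoZeros F,
        ∃ l : ℝ, 0 < l ∧ l < 1 ∧ ∃ B : ℝ, ∀ᶠ X : ℝ in atTop,
          logMean (fun x => Real.log (window a b l x)) X ≤ B,
        ∀ l : ℝ, 0 < l → l < 1 →
          Tendsto (logMean fun x => Real.log (window a b l x) - m * Real.log (1 / l)) atTop
            (𝓝 0)] ∧
      ∀ ρ l : ℝ, 0 < l → l < 1 →
        (Tendsto (logMean fun x => Real.log (window a b l x) - ρ * Real.log (1 / l)) atTop (𝓝 0) ↔
          NoZeros F ∧ ρ = m) := by
  have hrs : Tendsto (rsSum a b) atTop (𝓝 0) :=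
    (hecke hf).rsSum_tendsto hΔ fun p hp => hf.points p hp
  obtain ⟨C₀, κ, hg⟩ := growth_F hΔ hF (hecke hf) fun p hp => hf.points p hp
  have H := curve_mc hF (by norm_num : (0 : ℝ) < 1 / 8) hg
  obtain ⟨m, hm⟩ := Pool.Agent.W189.ML.order_finite_all hF 1
  have hz : (∀ s : ℂ, 0 < s.re → F (1 + s) ≠ 0) ↔ NoZeros F := by
    refine ⟨fun h s hs => ?_, fun h s hs => h _ (by simpa using hs)⟩
    have := h (s - 1) (by simpa using hs)
    rwa [add_sub_cancel] at this
  have key : ∀ ρ l : ℝ, 0 < l → l < 1 →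
      (Tendsto (logMean fun x => Real.log (window a b l x) - ρ * Real.log (1 / l)) atTop (𝓝 0) ↔
        NoZeros F ∧ ρ = m) := by
    intro ρ l hl hl1
    rw [← tendsto_congr' (mean_eq a b ρ hl1), window_pv H ρ (sq_lim hΔ hrs) hl hl1, hz,
      mero_ord hF.1 hm]
    refine and_congr_right fun _ => ⟨?_, fun h => ⟨m, by exact_mod_cast h, rfl⟩⟩
    rintro ⟨n, h1, h2⟩
    have h3 : (m : ℤ) = n := by exact_mod_cast h2
    rw [h1, ← h3]
    push_cast
    rfl
  refine ⟨m, hm, ?_, key⟩
  have t : (∀ s : ℂ, 0 < s.re → F (1 + s) ≠ 0) ↔ ∃ l : ℝ, 0 < l ∧ l < 1 ∧ ∃ B : ℝ,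
      ∀ᶠ Y : ℝ in atTop, ∫ y in Real.exp 1..Y, |WV (nQ a b) (alQ a b) 0 l y| / y ≤
        B * Real.log Y := (window_bdd H).out 0 3
  rw [hz] at t
  tfae_have 1 ↔ 2 := by
    rw [t]
    refine exists_congr fun l => and_congr_right fun _ => and_congr_right fun hl1 =>
      exists_congr fun B => eventually_congr ?_
    filter_upwards [eventually_ge_atTop (Real.exp 1)] with Y hY
    have hlog : 0 < Real.log Y := by
      have := Pool.Agent.TH270.MS.one_le_log hY
      linarith
    unfold logMean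
    rw [div_le_iff₀ hlog]
    have h1 : ∫ y in Real.exp 1..Y, |WV (nQ a b) (alQ a b) 0 l y| / y =
        ∫ x in Real.exp 1..Y, |Real.log (window a b l x)| / x := by
      refine intervalIntegral.integral_congr fun y hy => ?_
      rw [uIcc_of_le hY] at hy
      show |WV (nQ a b) (alQ a b) 0 l y| / y = |Real.log (window a b l y)| / y
      rw [wv_eq a b 0 hl1 hy.1, zero_mul, sub_zero]
    rw [h1]
  tfae_have 1 ↔ 3 := by
    constructor
    · intro h l hl hl1
      exact (key m l hl hl1).2 ⟨h, rfl⟩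
    · intro h
      exact ((key m (1 / 2) (by norm_num) (by norm_num)).1 (h _ (by norm_num) (by norm_num))).1
  tfae_finish

end Pool.Agent.Results.MP_8b7eba_nt.OneWindow
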